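import Pool.Agent.H33.HC.TA

/-!
# HSC: the cutoff for complex exponents (MP_347b49_nt)
-/

set_option autoImplicit false

open NumberField MeasureTheory Filter Topology
open scoped nonZeroDivisors ContDiff

namespace Pool.Agent.H38.HC

open Pool.Agent.H33.HC Pool.Agent.H33.HH Pool.Agent.H28.RC Pool.Agent.H37.CV

theorem cpow_smooth (c : ℂ) (v : ℝ) (hv : 0 < v) :
    ContDiffAt ℝ ∞ (fun u : ℝ => (u : ℂ) ^ c) v := by
  have h1 : ContDiffAt ℝ ∞ (fun u : ℝ => Complex.exp (((Real.log u : ℝ) : ℂ) * c)) v := by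
    refine ContDiffAt.cexp (ContDiffAt.mul ?_ contDiffAt_const)
    exact Complex.ofRealCLM.contDiff.contDiffAt.comp v (Real.contDiffAt_log.mpr hv.ne')
  refine h1.congr_of_eventuallyEq ?_
  filter_upwards [lt_mem_nhds hv] with u hu
  rw [Complex.cpow_def_of_ne_zero (by exact_mod_cast hu.ne'), Complex.ofReal_log hu.le]

theorem cpow_der (c : ℂ) (v : ℝ) (hv : 0 < v) :
    HasDerivAt (fun u : ℝ => (u : ℂ) ^ c) (c * (v : ℂ) ^ (c - 1)) v := by
  have h1 : HasDerivAt (fun z : ℂ => z ^ c) (c * (v : ℂ) ^ (c - 1) * 1) (v : ℂ) :=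
    (hasDerivAt_id (v : ℂ)).cpow_const (by
      rw [id, Complex.ofReal_mem_slitPlane]
      exact hv)
  rw [mul_one] at h1
  exact h1.comp_ofReal

theorem hs_smooth {H : ℝ → ℝ} (hH : IsH H) (s : ℂ) : ContDiff ℝ ∞ (Hs H s) := by
  rw [contDiff_iff_contDiffAt]
  intro v
  rcases lt_or_ge v (1 / 2) with hv | hv
  · refine (contDiffAt_const (c := (0 : ℂ))).congr_of_eventuallyEq ?_
    filter_upwards [gt_mem_nhds hv] with u hu
    show (H u : ℂ) * (u : ℂ) ^ (1 / 2 - s) = 0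
    rw [hH.low u hu.le]
    simp
  · have hv0 : 0 < v := by linarith
    exact (Complex.ofRealCLM.contDiff.comp hH.smooth).contDiffAt.mul (cpow_smooth _ v hv0)

theorem sym_le {H : ℝ → ℝ} (hH : IsH H) (v : ℝ) (hv : 0 < v) :
    H v * v ^ (1 / 2 : ℝ) ≤ 1 := by
  have h := hH.sym v hv
  have h1 : 0 ≤ v ^ (-(1 / 2) : ℝ) * H v⁻¹ :=
    mul_nonneg (Real.rpow_nonneg hv.le _) (hH.nonneg _)
  rw [mul_comm]
  linarith

theorem pf_HSC : T_HSC := by
  intro H hH
  refine ⟨fun s => ⟨hs_smooth hH s, ?_, ?_, ?_, ?_⟩, ?_⟩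
  · intro v hv
    show (H v : ℂ) * (v : ℂ) ^ (1 / 2 - s) = 0
    rw [hH.low v hv]
    simp
  · intro v hv
    have hv0 : 0 < v := by linarith
    show (H v : ℂ) * (v : ℂ) ^ (1 / 2 - s) = (v : ℂ) ^ (-s)
    rw [hH.high v hv, Complex.ofReal_cpow hv0.le, ← Complex.cpow_add _ _
      (by exact_mod_cast hv0.ne')]
    congr 1
    push_cast
    ring
  · show (H 1 : ℂ) * ((1 : ℝ) : ℂ) ^ (1 / 2 - s) = 1 / 2
    have h := hH.sym 1 one_pos
    rw [Real.one_rpow, Real.one_rpow, inv_one] at h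
    have h1 : H 1 = 1 / 2 := by linarith
    rw [h1]
    simp
  · intro s' v hv
    have hv0 : (v : ℂ) ≠ 0 := by exact_mod_cast hv.ne'
    show (v : ℂ) ^ s * ((H v : ℂ) * (v : ℂ) ^ (1 / 2 - s)) +
      (v : ℂ) ^ (-s') * ((H v⁻¹ : ℂ) * ((v⁻¹ : ℝ) : ℂ) ^ (1 / 2 - s')) = 1
    have e1 : (v : ℂ) ^ s * ((H v : ℂ) * (v : ℂ) ^ (1 / 2 - s)) =
        ((v ^ (1 / 2 : ℝ) * H v : ℝ) : ℂ) := by
      push_cast
      rw [Complex.ofReal_cpow hv.le]
      have : (v : ℂ) ^ s * (v : ℂ) ^ (1 / 2 - s) = (v : ℂ) ^ (((1 / 2 : ℝ) : ℂ)) := by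
        rw [← Complex.cpow_add _ _ hv0]
        congr 1
        push_cast
        ring
      rw [← this]
      ring
    have e2 : (v : ℂ) ^ (-s') * ((H v⁻¹ : ℂ) * ((v⁻¹ : ℝ) : ℂ) ^ (1 / 2 - s')) =
        ((v ^ (-(1 / 2) : ℝ) * H v⁻¹ : ℝ) : ℂ) := by
      push_cast
      rw [Complex.ofReal_cpow hv.le]
      have harg : (v : ℂ).arg ≠ Real.pi := by
        rw [Complex.arg_ofReal_of_nonneg hv.le]
        exact Real.pi_ne_zero.symm
      have e3 : ((v : ℂ)⁻¹) ^ (1 / 2 - s') = (v : ℂ) ^ (-(1 / 2 - s')) := by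
        rw [Complex.inv_cpow _ _ harg, Complex.cpow_neg]
      rw [e3]
      have : (v : ℂ) ^ (-s') * (v : ℂ) ^ (-(1 / 2 - s')) =
          (v : ℂ) ^ (((-(1 / 2) : ℝ) : ℂ)) := by
        rw [← Complex.cpow_add _ _ hv0]
        congr 1
        push_cast
        ring
      rw [← this]
      ring
    rw [e1, e2, ← Complex.ofReal_add, hH.sym v hv]
    simp
  · -- the bounds
    have hcd : Continuous (deriv H) := hH.smooth.continuous_deriv (by simp)
    obtain ⟨C₀, hC₀⟩ := (isCompact_Icc (a := (0 : ℝ)) (b := 2)).exists_bound_of_continuousOn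
      hcd.continuousOn
    have hC₀0 : 0 ≤ C₀ := (norm_nonneg _).trans (hC₀ 0 ⟨le_refl _, by norm_num⟩)
    have hder : ∀ v : ℝ, 0 < v → |deriv H v| * v ^ (3 / 2 : ℝ) ≤ 4 * C₀ + 1 := by
      intro v hv
      rcases le_or_gt v 2 with h2 | h2
      · have h3 := hC₀ v ⟨hv.le, h2⟩
        rw [Real.norm_eq_abs] at h3
        have h4 : v ^ (3 / 2 : ℝ) ≤ 4 := by
          calc v ^ (3 / 2 : ℝ) ≤ 2 ^ (3 / 2 : ℝ) := Real.rpow_le_rpow hv.le h2 (by norm_num)
            _ ≤ 2 ^ (2 : ℝ) := Real.rpow_le_rpow_of_exponent_le (by norm_num) (by norm_num)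
            _ = 4 := by norm_num
        have h5 : 0 ≤ v ^ (3 / 2 : ℝ) := Real.rpow_nonneg hv.le _
        have h6 : 0 ≤ |deriv H v| := abs_nonneg _
        nlinarith
      · have h3 : deriv H v = -(1 / 2) * v ^ (-(1 / 2) - 1 : ℝ) := by
          have h4 : HasDerivAt (fun u : ℝ => u ^ (-(1 / 2) : ℝ))
              (-(1 / 2) * v ^ (-(1 / 2) - 1 : ℝ)) v := Real.hasDerivAt_rpow_const (Or.inl hv.ne')
          have h5 : H =ᶠ[𝓝 v] fun u : ℝ => u ^ (-(1 / 2) : ℝ) := by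
            filter_upwards [lt_mem_nhds h2] with u hu
            exact hH.high u hu.le
          exact (h4.congr_of_eventuallyEq h5).deriv
        rw [h3, abs_mul, abs_of_nonneg (Real.rpow_nonneg hv.le _), mul_assoc,
          ← Real.rpow_add hv]
        norm_num
        linarith
    refine ⟨4 * C₀ + 2, by linarith, ?_⟩
    intro s hs v hv
    have hv0 : (v : ℂ) ≠ 0 := by exact_mod_cast hv.ne'
    have hsy := sym_le hH v hv
    have hHv := hH.nonneg v
    have hr : ∀ r : ℝ, 0 < v ^ r := fun r => Real.rpow_pos_of_pos hv r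
    constructor
    · show ‖(H v : ℂ) * (v : ℂ) ^ (1 / 2 - s)‖ ≤ _
      rw [norm_mul, Complex.norm_real, Real.norm_of_nonneg hHv,
        Complex.norm_cpow_eq_rpow_re_of_pos hv]
      have e1 : (1 / 2 - s : ℂ).re = 1 / 2 + -s.re := by
        simp
        ring
      rw [e1, Real.rpow_add hv]
      have h1 : H v * (v ^ (1 / 2 : ℝ) * v ^ (-s.re)) ≤ 1 * v ^ (-s.re) := by
        rw [← mul_assoc]
        exact mul_le_mul_of_nonneg_right hsy (hr _).le
      refine h1.trans ?_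
      exact mul_le_mul_of_nonneg_right (by linarith) (hr _).le
    · have hd : HasDerivAt (Hs H s) (((deriv H v : ℝ) : ℂ) * (v : ℂ) ^ (1 / 2 - s) +
          (H v : ℂ) * ((1 / 2 - s) * (v : ℂ) ^ (1 / 2 - s - 1))) v := by
        have hH1 : HasDerivAt H (deriv H v) v :=
          (hH.smooth.differentiable (by simp)).differentiableAt.hasDerivAt
        exact hH1.ofReal_comp.mul (cpow_der _ v hv)
      rw [hd.deriv]
      refine (norm_add_le _ _).trans ?_
      rw [norm_mul, norm_mul, norm_mul, Complex.norm_real, Complex.norm_real,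
        Real.norm_of_nonneg hHv, Complex.norm_cpow_eq_rpow_re_of_pos hv,
        Complex.norm_cpow_eq_rpow_re_of_pos hv, Real.norm_eq_abs]
      have e1 : (1 / 2 - s : ℂ).re = 3 / 2 + (-s.re - 1) := by
        simp
        ring
      have e2 : (1 / 2 - s - 1 : ℂ).re = 1 / 2 + (-s.re - 1) := by
        simp
        ring
      rw [e1, e2, Real.rpow_add hv, Real.rpow_add hv]
      have hn : ‖(1 / 2 - s : ℂ)‖ ≤ 1 + |s.im| := by
        refine (Complex.norm_le_abs_re_add_abs_im _).trans ?_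
        have h1 : |(1 / 2 - s : ℂ).re| ≤ 1 := by
          have : (1 / 2 - s : ℂ).re = -(s.re - 1 / 2) := by
            simp
          rw [this, abs_neg]
          exact hs.trans (by norm_num)
        have h2 : |(1 / 2 - s : ℂ).im| = |s.im| := by
          simp
        rw [h2]
        linarith
      have hi : 0 ≤ |s.im| := abs_nonneg _
      have hp := (hr (-s.re - 1)).le
      have h3 : |deriv H v| * (v ^ (3 / 2 : ℝ) * v ^ (-s.re - 1)) ≤
          (4 * C₀ + 1) * v ^ (-s.re - 1) := by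
        rw [← mul_assoc]
        exact mul_le_mul_of_nonneg_right (hder v hv) hp
      have h4 : H v * (‖(1 / 2 - s : ℂ)‖ * (v ^ (1 / 2 : ℝ) * v ^ (-s.re - 1))) ≤
          (1 + |s.im|) * v ^ (-s.re - 1) := by
        have e3 : H v * (‖(1 / 2 - s : ℂ)‖ * (v ^ (1 / 2 : ℝ) * v ^ (-s.re - 1))) =
            (H v * v ^ (1 / 2 : ℝ)) * ‖(1 / 2 - s : ℂ)‖ * v ^ (-s.re - 1) := by ring
        rw [e3]
        refine mul_le_mul_of_nonneg_right ?_ hp
        calc (H v * v ^ (1 / 2 : ℝ)) * ‖(1 / 2 - s : ℂ)‖ ≤ 1 * (1 + |s.im|) :=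
              mul_le_mul hsy hn (norm_nonneg _) zero_le_one
          _ = _ := one_mul _
      have h5 : (4 * C₀ + 1) * v ^ (-s.re - 1) ≤ (4 * C₀ + 1) * (1 + |s.im|) * v ^ (-s.re - 1) := by
        refine mul_le_mul_of_nonneg_right ?_ hp
        nlinarith
      calc _ ≤ (4 * C₀ + 1) * v ^ (-s.re - 1) + (1 + |s.im|) * v ^ (-s.re - 1) :=
            add_le_add h3 h4
        _ ≤ (4 * C₀ + 1) * (1 + |s.im|) * v ^ (-s.re - 1) + (1 + |s.im|) * v ^ (-s.re - 1) := by
            linarith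
        _ = _ := by ring

end Pool.Agent.H38.HC
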