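import Pool.Agent.H33.HC.TA

/-!
# PLC: integrals over the plane, complex exponents (MP_347b49_nt)
-/

set_option autoImplicit false

open NumberField MeasureTheory
open scoped nonZeroDivisors ContDiff

namespace Pool.Agent.H38.HC

open Pool.Agent.H33.HC Pool.Agent.H33.HH Pool.Agent.H28.RC Pool.Agent.H37.CV

/-- radial functions in the plane -/
theorem int_radial (h : ℝ → ℂ) :
    ∫ g : ℂ, h (‖g‖ ^ 2) = (Real.pi : ℂ) * ∫ u in Set.Ioi (0 : ℝ), h u := by
  have h1 := MeasureTheory.integral_fun_norm_addHaar (E := ℂ) (volume : Measure ℂ)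
    (fun y : ℝ => h (y ^ 2))
  rw [h1, Complex.finrank_real_complex]
  have hv : (volume : Measure ℂ).real (Metric.ball (0 : ℂ) 1) = Real.pi := by
    rw [Measure.real, Complex.volume_ball]
    simp [NNReal.coe_real_pi]
  rw [hv]
  have h2 := MeasureTheory.integral_comp_rpow_Ioi_of_pos (g := h) (p := 2) two_pos
  have h3 : ∫ y in Set.Ioi (0 : ℝ), y ^ (2 - 1) • h (y ^ 2) =
      (1 / 2 : ℂ) * ∫ u in Set.Ioi (0 : ℝ), h u := by
    rw [← h2, ← integral_const_mul]
    refine setIntegral_congr_fun measurableSet_Ioi fun y hy => ?_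
    have e1 : (2 : ℝ) - 1 = 1 := by norm_num
    have e2 : y ^ (2 : ℝ) = y ^ 2 := by
      exact_mod_cast Real.rpow_natCast y 2
    simp only [e1, Real.rpow_one, e2, Complex.real_smul]
    push_cast
    ring
  rw [h3]
  simp only [nsmul_eq_mul, Complex.real_smul]
  push_cast
  ring

theorem pf_PLC (h1 : T_GSC) (h2 : T_HSC) (h3 : Pool.Agent.H33.HH.T_THB) : T_PLC := by
  intro K _ _ _ W G H hW hG hH s hs x t hx ht
  have hR : Continuous (Rr K W) := (h3 K W hW).1.continuous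
  have hT : Continuous (Th K W) := by
    have e : Th K W = fun y => Rr K W y + Thi K W := by
      funext y
      unfold Rr
      ring
    rw [e]
    exact hR.add continuous_const
  have hc : Continuous fun g : ℂ => ‖g - 1‖ ^ 2 * x :=
    ((continuous_norm.comp (continuous_id.sub continuous_const)).pow 2).mul continuous_const
  obtain ⟨hGs, -, hG6, -⟩ := (h1 G hG).1 s hs
  obtain ⟨hHs, -⟩ := (h2 H hH).1 s
  have hf : Continuous fun g : ℂ => Hs H s (‖g‖ ^ 2) * Gs G s (‖g‖ ^ 2 * t) :=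
    (hHs.continuous.comp (continuous_norm.pow 2)).mul
      (hGs.continuous.comp ((continuous_norm.pow 2).mul continuous_const))
  have hsu : HasCompactSupport fun g : ℂ => Hs H s (‖g‖ ^ 2) * Gs G s (‖g‖ ^ 2 * t) := by
    refine HasCompactSupport.of_support_subset_isCompact
      (isCompact_closedBall (0 : ℂ) (6 / t + 1)) ?_
    intro g hg
    rw [mem_closedBall_zero_iff]
    by_contra hc
    apply hg
    have h1 : 6 / t + 1 < ‖g‖ := not_le.1 hc
    have h0 : 0 < 6 / t := by positivity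
    have h2 : 6 / t ≤ ‖g‖ ^ 2 := by nlinarith
    have h3 : 6 ≤ ‖g‖ ^ 2 * t := (div_le_iff₀ ht).1 h2
    show Hs H s (‖g‖ ^ 2) * Gs G s (‖g‖ ^ 2 * t) = 0
    rw [hG6 _ h3, mul_zero]
  have i1 : Integrable (fun g : ℂ => Hs H s (‖g‖ ^ 2) * Gs G s (‖g‖ ^ 2 * t) *
      ((Th K W (‖g - 1‖ ^ 2 * x) : ℝ) : ℂ)) :=
    (hf.mul (Complex.continuous_ofReal.comp (hT.comp hc))).integrable_of_hasCompactSupport
      hsu.mul_right
  have i2 : Integrable (fun g : ℂ => Hs H s (‖g‖ ^ 2) * Gs G s (‖g‖ ^ 2 * t) *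
      ((Rr K W (‖g - 1‖ ^ 2 * x) : ℝ) : ℂ)) :=
    (hf.mul (Complex.continuous_ofReal.comp (hR.comp hc))).integrable_of_hasCompactSupport
      hsu.mul_right
  have i3 : Integrable (fun g : ℂ => ((Thi K W : ℝ) : ℂ) *
      (Hs H s (‖g‖ ^ 2) * Gs G s (‖g‖ ^ 2 * t))) :=
    (hf.integrable_of_hasCompactSupport hsu).const_mul _
  refine ⟨i1, ?_⟩
  have e1 : (fun g : ℂ => Hs H s (‖g‖ ^ 2) * Gs G s (‖g‖ ^ 2 * t) *
      ((Th K W (‖g - 1‖ ^ 2 * x) : ℝ) : ℂ)) =
      fun g : ℂ => ((Thi K W : ℝ) : ℂ) * (Hs H s (‖g‖ ^ 2) * Gs G s (‖g‖ ^ 2 * t)) +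
        Hs H s (‖g‖ ^ 2) * Gs G s (‖g‖ ^ 2 * t) * ((Rr K W (‖g - 1‖ ^ 2 * x) : ℝ) : ℂ) := by
    funext g
    unfold Rr
    push_cast
    ring
  rw [e1, integral_add i3 i2, integral_const_mul]
  congr 1
  rw [int_radial (fun u => Hs H s u * Gs G s (u * t))]
  rfl

end Pool.Agent.H38.HC
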